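import Pool.Agent.MP_6a4325_al.H62.Base2

/-!
Row KEY: the consequence of the Artin-Rees property, and central elements act as scalars.
-/

set_option autoImplicit false

namespace Pool.Agent.MP_6a4325_al.H94

open Pool.Agent.MP_6a4325_al.H62

section Lin

variable {k M ι : Type} [Field k] [AddCommGroup M] [Module k M]

theorem nak_one (f : Module.End k M) (V W : Submodule k M) (hW : ∀ w ∈ W, f w ∈ W)
    (h : V ≤ W ⊔ V.map f) (n : ℕ) : V ≤ W ⊔ V.map (f ^ n) := by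
  induction n with
  | zero =>
    intro u hu
    exact Submodule.mem_sup_right ⟨u, hu, rfl⟩
  | succ n ih =>
    refine h.trans (sup_le le_sup_left ?_)
    rintro _ ⟨u, hu, rfl⟩
    obtain ⟨w, hw, _, ⟨y, hy, rfl⟩, e⟩ := Submodule.mem_sup.1 (ih hu)
    rw [← e, map_add]
    refine add_mem (Submodule.mem_sup_left (hW w hw)) (Submodule.mem_sup_right ⟨y, hy, ?_⟩)
    rw [pow_succ']
    rfl

/-- a Nakayama lemma for commuting maps that are nilpotent modulo `W` -/
theorem nak (f : ι → Module.End k M) (V : Submodule k M) (S : Finset ι)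
    (hc : ∀ i ∈ S, ∀ j ∈ S, ∀ u, f i (f j u) = f j (f i u))
    (hV : ∀ i ∈ S, ∀ u ∈ V, f i u ∈ V) (W : Submodule k M) (hW : ∀ i ∈ S, ∀ w ∈ W, f i w ∈ W)
    (hn : ∀ i ∈ S, ∃ n : ℕ, ∀ u ∈ V, (f i ^ n) u ∈ W)
    (h : V ≤ W ⊔ ⨆ i ∈ S, V.map (f i)) : V ≤ W := by
  classical
  induction S using Finset.induction_on generalizing W with
  | empty => simpa using h
  | insert j S hj ih =>
    have hm : ∀ i ∈ S, i ∈ insert j S := fun i hi => Finset.mem_insert_of_mem hi
    have hjm : j ∈ insert j S := Finset.mem_insert_self j S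
    have h1 : V ≤ W ⊔ V.map (f j) := by
      refine ih (fun i hi l hl => hc i (hm i hi) l (hm l hl)) (fun i hi => hV i (hm i hi)) _
        (fun i hi w hw => ?_) (fun i hi => ?_) ?_
      · obtain ⟨w', hw', _, ⟨y, hy, rfl⟩, rfl⟩ := Submodule.mem_sup.1 hw
        rw [map_add]
        exact add_mem (Submodule.mem_sup_left (hW i (hm i hi) w' hw'))
          (Submodule.mem_sup_right ⟨f i y, hV i (hm i hi) y hy, hc j hjm i (hm i hi) y⟩)
      · exact (hn i (hm i hi)).imp fun n hn u hu => Submodule.mem_sup_left (hn u hu)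
      · rwa [Finset.iSup_insert, ← sup_assoc] at h
    obtain ⟨n, hn⟩ := hn j hjm
    refine (nak_one (f j) V W (hW j hjm) h1 n).trans (sup_le le_rfl ?_)
    rintro _ ⟨u, hu, rfl⟩
    exact hn u hu

end Lin

section Rep

variable {k G M : Type} [Field k] [Group G] [AddCommGroup M] [Module k M]
  {ρ : Representation k G M}

theorem aug_mono {E E' : Subgroup G} {U U' : Submodule k M} (hE : E ≤ E') (hU : U ≤ U') :
    aug ρ E U ≤ aug ρ E' U' :=
  Submodule.span_mono fun _ ⟨a, ha, u, hu, e⟩ => ⟨a, hE ha, u, hU hu, e⟩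

theorem genS_mono {H H' : Subgroup G} (hH : H ≤ H') (T : Set M) : genS ρ H T ≤ genS ρ H' T :=
  Submodule.span_mono fun _ ⟨a, ha, u, hu, e⟩ => ⟨a, hH ha, u, hu, e⟩

theorem invS_aug {E H : Subgroup G} (hE : Nz E H) {U : Submodule k M} (hU : InvS ρ H U) :
    InvS ρ H (aug ρ E U) := fun g hg u hu => by
  induction hu using Submodule.span_induction with
  | mem x hx =>
    obtain ⟨a, ha, w, hw, rfl⟩ := hx
    refine Submodule.subset_span ⟨g * a * g⁻¹, hE g hg a ha, ρ g w, hU g hg w hw, ?_⟩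
    rw [map_sub, rep_mul, rep_inv, rep_mul]
  | zero => rw [map_zero]; exact zero_mem _
  | add x y _ _ hx hy => rw [map_add]; exact add_mem hx hy
  | smul c x _ hx => rw [map_smul]; exact Submodule.smul_mem _ c hx

/-- the augmentation ideal is generated by the generators of the subgroup -/
theorem aug_closure (S : Finset G) (V : Submodule k M)
    (hV : InvS ρ (Subgroup.closure (↑S : Set G)) V) :
    aug ρ (Subgroup.closure (↑S : Set G)) V ≤ ⨆ s ∈ S, V.map (ρ s - 1 : Module.End k M) := by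
  refine Submodule.span_le.2 ?_
  rintro _ ⟨a, ha, u, hu, rfl⟩
  induction ha using Subgroup.closure_induction generalizing u with
  | mem s hs =>
    exact Submodule.mem_iSup_of_mem s (Submodule.mem_iSup_of_mem hs ⟨u, hu, rfl⟩)
  | one => rw [map_one, Module.End.one_apply, sub_self]; exact zero_mem _
  | mul a b ha hb iha ihb =>
    have e : ρ (a * b) u - u = (ρ a (ρ b u) - ρ b u) + (ρ b u - u) := by
      rw [rep_mul]; abel
    rw [e]
    exact add_mem (iha _ (hV b hb u hu)) (ihb u hu)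
  | inv a ha iha =>
    have e : ρ a⁻¹ u - u = -(ρ a (ρ a⁻¹ u) - ρ a⁻¹ u) := by
      rw [rep_inv']; abel
    rw [e]
    exact neg_mem (iha _ (hV _ (Subgroup.inv_mem _ ha) u hu))

theorem fg_sup {H K : Subgroup G} (hH : H.FG) (hK : K.FG) : (H ⊔ K).FG := by
  classical
  obtain ⟨S, rfl⟩ := hH
  obtain ⟨T, rfl⟩ := hK
  exact ⟨S ∪ T, by rw [Finset.coe_union, Subgroup.closure_union]⟩

theorem fg_zpowers (g : G) : (Subgroup.zpowers g).FG :=
  ⟨{g}, by rw [Finset.coe_singleton, Subgroup.zpowers_eq_closure]⟩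

/-- a property of vectors that is monotone in a finitely generated subgroup -/
theorem span_fg (Γ : Subgroup G) (hΓ : Γ.FG) (X : Subgroup G → Submodule k M) (hX : Monotone X)
    (T : Set M) (hT : ∀ t ∈ T, ∃ H : Subgroup G, H.FG ∧ Γ ≤ H ∧ t ∈ X H) :
    ∀ u ∈ Submodule.span k T, ∃ H : Subgroup G, H.FG ∧ Γ ≤ H ∧ u ∈ X H := fun u hu => by
  induction hu using Submodule.span_induction with
  | mem x hx => exact hT x hx
  | zero => exact ⟨Γ, hΓ, le_rfl, zero_mem _⟩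
  | add x y _ _ hx hy =>
    obtain ⟨H, h1, h2, h3⟩ := hx
    obtain ⟨K, k1, _, k3⟩ := hy
    exact ⟨H ⊔ K, fg_sup h1 k1, h2.trans le_sup_left,
      add_mem (hX le_sup_left h3) (hX le_sup_right k3)⟩
  | smul c x _ hx =>
    obtain ⟨H, h1, h2, h3⟩ := hx
    exact ⟨H, h1, h2, Submodule.smul_mem _ c h3⟩

theorem exists_fg_aug (h : Irr ρ) {v : M} (hv : v ≠ 0) (Γ : Subgroup G) (hΓ : Γ.FG)
    (R : Subgroup G) (hR : aug ρ R ⊤ = ⊤) :
    ∃ H : Subgroup G, H.FG ∧ Γ ≤ H ∧ v ∈ aug ρ (R ⊓ H) (genS ρ H {v}) := by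
  have h1 : ∀ u : M, ∃ H : Subgroup G, H.FG ∧ Γ ≤ H ∧ u ∈ genS ρ H {v} := fun u => by
    refine span_fg Γ hΓ (fun H => genS ρ H {v}) (fun _ _ hH => genS_mono hH _) _ ?_ u
      (show u ∈ gen ρ {v} from h.gen_top hv ▸ Submodule.mem_top)
    rintro _ ⟨g, t, ht, rfl⟩
    exact ⟨Γ ⊔ Subgroup.zpowers g, fg_sup hΓ (fg_zpowers g), le_sup_left,
      Submodule.subset_span ⟨g, Subgroup.mem_sup_right (Subgroup.mem_zpowers g), t, ht, rfl⟩⟩
  refine span_fg Γ hΓ (fun H => aug ρ (R ⊓ H) (genS ρ H {v}))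
    (fun _ _ hH => aug_mono (inf_le_inf_left _ hH) (genS_mono hH _)) _ ?_ v
    (show v ∈ aug ρ R ⊤ from hR.ge Submodule.mem_top)
  rintro _ ⟨r, hr, u, -, rfl⟩
  obtain ⟨H, k1, k2, k3⟩ := h1 u
  exact ⟨H ⊔ Subgroup.zpowers r, fg_sup k1 (fg_zpowers r), k2.trans le_sup_left,
    Submodule.subset_span ⟨r, ⟨hr, Subgroup.mem_sup_right (Subgroup.mem_zpowers r)⟩, u,
      genS_mono le_sup_left _ k3, rfl⟩⟩

/-- finite generation over a subgroup of finite index -/
theorem exists_gen_fin (ρ : Representation k G M) {Γ H : Subgroup G} (hle : Γ ≤ H)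
    (hi : Γ.relIndex H ≠ 0) (v : M) :
    ∃ T : Finset M, gen (ρ.comp Γ.subtype) ↑T = genS ρ H {v} := by
  classical
  have : (Γ.subgroupOf H).FiniteIndex := ⟨hi⟩
  have : Fintype (H ⧸ Γ.subgroupOf H) := Fintype.ofFinite _
  refine ⟨Finset.univ.image fun q : H ⧸ Γ.subgroupOf H => ρ (q.out : G)⁻¹ v, le_antisymm ?_ ?_⟩
  · refine gen_le (fun g u hu => invS_genS ρ H _ g (hle g.2) u hu) fun t ht => ?_
    obtain ⟨q, -, rfl⟩ := Finset.mem_image.1 ht
    exact Submodule.subset_span ⟨_, H.inv_mem q.out.2, v, rfl, rfl⟩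
  · refine Submodule.span_le.2 ?_
    rintro _ ⟨g, hg, t, rfl, rfl⟩
    obtain ⟨c, hc⟩ := QuotientGroup.mk_out_eq_mul (Γ.subgroupOf H) (⟨g, hg⟩ : H)⁻¹
    refine Submodule.subset_span ⟨⟨c, c.2⟩, _,
      Finset.mem_coe.2 (Finset.mem_image_of_mem _ (Finset.mem_univ
        (QuotientGroup.mk (⟨g, hg⟩ : H)⁻¹))), ?_⟩
    rw [hc]
    change ρ g t = ρ (c : H) (ρ (g⁻¹ * (c : H))⁻¹ t)
    rw [← rep_mul, mul_inv_rev, inv_inv, mul_inv_cancel_left]

/-- in a finite dimensional irreducible representation over an absolute field a power of a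
finitely generated abelian normal subgroup acts trivially -/
theorem exists_pw [IsAlgClosed k] (hk : Absolute k) (h : Irr ρ) [FiniteDimensional k M]
    (A : Subgroup G) [A.Normal] (hA : Cm A A) (hf : A.FG) :
    ∃ e : ℕ, 0 < e ∧ ∀ a ∈ hA.pw e, ρ a = 1 := by
  have := h.1
  obtain ⟨u, -, hu, hc⟩ := exists_eigen (fun a : A => ρ a) ⊤ top_ne_bot
    (fun a b u _ => by rw [← rep_mul, hA a a.2 b b.2, rep_mul]) fun _ _ _ => trivial
  choose c hc using hc
  have h0 : ∀ a, c a ≠ 0 := fun a e => hu (by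
    rw [← rep_inv ρ a u, hc a, e, zero_smul, map_zero])
  choose m hm hm' using fun a => isOfFinOrder_iff_pow_eq_one.1 (hk _ (h0 a))
  obtain ⟨S, hS⟩ := (Group.fg_iff_subgroup_fg _).2 hf
  refine ⟨∏ s ∈ S, m s, Finset.prod_pos fun s _ => hm s, ?_⟩
  have := hA.pw_normal (∏ s ∈ S, m s)
  have h1 : ∀ a : A, c a ^ ∏ s ∈ S, m s = 1 := fun a => by
    have hmul : ∀ a b : A, c (a * b) = c a * c b := fun a b => smul_left_injective k hu (by
      beta_reduce
      rw [← hc, Subgroup.coe_mul, rep_mul, hc b, map_smul, hc a, smul_smul, mul_comm])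
    have hone : c 1 = 1 := smul_left_injective k hu (by
      beta_reduce
      rw [← hc, Subgroup.coe_one, map_one, one_smul]; rfl)
    have ha : a ∈ Subgroup.closure (↑S : Set A) := hS ▸ Subgroup.mem_top a
    induction ha using Subgroup.closure_induction with
    | mem s hs =>
      obtain ⟨d, hd⟩ := Finset.dvd_prod_of_mem m hs
      rw [hd, pow_mul, hm', one_pow]
    | one => rw [hone, one_pow]
    | mul a b _ _ iha ihb => rw [hmul, mul_pow, iha, ihb, one_mul]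
    | inv a _ iha =>
      have := congrArg (· ^ ∏ s ∈ S, m s) (hmul a a⁻¹)
      simpa only [mul_inv_cancel, hone, one_pow, mul_pow, iha, one_mul, eq_comm] using this
  refine h.fix _ hu ?_
  rintro _ ⟨a, ha, rfl⟩
  have h2 : ∀ n : ℕ, ρ (a ^ n) u = c ⟨a, ha⟩ ^ n • u := fun n => by
    induction n with
    | zero => rw [pow_zero, pow_zero, map_one, one_smul]; rfl
    | succ n ih => rw [pow_succ', rep_mul, ih, map_smul, hc ⟨a, ha⟩, smul_smul, pow_succ]
  rw [h2, h1, one_smul]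

end Rep

theorem key : SRose → SAR → PCApi → SKey := by
  intro hRose hAR hPC p _ k G M _ _ _ _ _ _ ρ hk hs hL hρ Γ A hΓ hA hc
  have := hρ.1
  obtain ⟨v, hv⟩ := exists_ne (0 : M)
  have hP : H62.Poly Γ := hPC.loc G hs hL Γ hΓ.1
  let σ := (invS_genS ρ Γ {v}).rep
  let v₀ : genS ρ Γ {v} := ⟨v, mem_genS ρ Γ rfl⟩
  have hσ : gen σ {v₀} = ⊤ := gen_rep_genS ρ Γ v
  have : Nontrivial (genS ρ Γ {v}) := ⟨v₀, 0, fun e => hv (congrArg Subtype.val e)⟩
  obtain ⟨U, hU, -, hirr⟩ := exists_irr_quot σ {v₀} (by rwa [Finset.coe_singleton]) ⊥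
    (fun g u hu => by rw [(Submodule.mem_bot k).1 hu, map_zero]; exact zero_mem _) bot_ne_top
  have := hRose p k Γ hk hP _ _ hirr
  have hc' : Cm (A.subgroupOf Γ) (A.subgroupOf Γ) := fun a ha b hb => Subtype.ext (hc a ha b hb)
  obtain ⟨e, he, hE⟩ := exists_pw hk hirr (A.subgroupOf Γ) hc' (hPC.fg Γ hP _)
  refine ⟨e, he, fun R hR hRA hr => ?_⟩
  refine (hρ.aug_top R).resolve_right fun htop => ?_
  have hEn : (hc'.pw e).Normal := hc'.pw_normal e
  have hEc : Cm (hc'.pw e) (hc'.pw e) := fun a ha b hb => hc' a (hc'.pw_le e ha) b (hc'.pw_le e hb)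
  have hv0 : v ∉ aug (ρ.comp Γ.subtype) (hc'.pw e) (genS ρ Γ {v}) := fun hmem => by
    have h1 : aug (ρ.comp Γ.subtype) (hc'.pw e) (genS ρ Γ {v}) ≤ U.map (genS ρ Γ {v}).subtype := by
      refine Submodule.span_le.2 ?_
      rintro _ ⟨a, ha, u, hu, rfl⟩
      refine ⟨σ a ⟨u, hu⟩ - ⟨u, hu⟩, ?_, rfl⟩
      have h2 := LinearMap.congr_fun (hE a ha) (U.mkQ ⟨u, hu⟩)
      exact (Submodule.Quotient.eq U).1 h2
    obtain ⟨w, hw, hwv⟩ := h1 hmem
    have h3 : w = v₀ := Subtype.ext hwv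
    have h4 : U = ⊤ := top_le_iff.1 (hσ ▸ gen_le hU fun t ht => by rw [ht, ← h3]; exact hw)
    exact Submodule.Quotient.nontrivial_iff.1 hirr.1 h4
  obtain ⟨H, hH, hΓH, hvH⟩ := exists_fg_aug hρ hv Γ hΓ.1 R htop
  obtain ⟨T, hT⟩ := exists_gen_fin ρ hΓH (hΓ.2 H hH hΓH) v
  obtain ⟨S, hS⟩ := hL H hH (R ⊓ H) inf_le_right
  have hSm : ∀ s ∈ S, s ∈ R ⊓ H := fun s hs => hS ▸ Subgroup.subset_closure hs
  have hV := invS_genS ρ H {v}
  have h1 : genS ρ H {v} ≤ aug ρ (R ⊓ H) (genS ρ H {v}) :=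
    genS_le (invS_aug (E := R ⊓ H) (fun g hg a ha => ⟨hR.conj_mem a ha.1 g,
      H.mul_mem (H.mul_mem hg ha.2) (H.inv_mem hg)⟩) hV) fun t ht => ht ▸ hvH
  have : CharP (Module.End k M) p :=
    charP_of_injective_algebraMap (algebraMap k (Module.End k M)).injective p
  have h2 : genS ρ H {v} ≤ aug (ρ.comp Γ.subtype) (hc'.pw e) (genS ρ H {v}) := by
    refine nak (fun s : G => (ρ s - 1 : Module.End k M)) _ S (fun a ha b hb u => ?_)
      (fun a ha u hu => sub_mem (hV a (hSm a ha).2 u hu) hu) _ (fun a ha w hw => sub_mem ?_ hw)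
      (fun a ha => ?_) ?_
    · simp only [LinearMap.sub_apply, Module.End.one_apply, map_sub, ← rep_mul,
        hc a (hRA (hSm a ha).1) b (hRA (hSm b hb).1)]
      abel
    · induction hw using Submodule.span_induction with
      | mem x hx =>
        obtain ⟨b, hb, u, hu, rfl⟩ := hx
        refine Submodule.subset_span ⟨b, hb, ρ a u, hV a (hSm a ha).2 u hu, ?_⟩
        change ρ a (ρ b u - u) = ρ b (ρ a u) - ρ a u
        rw [map_sub, ← rep_mul, hc a (hRA (hSm a ha).1) b (hc'.pw_le e hb), rep_mul]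
      | zero => rw [map_zero]; exact zero_mem _
      | add x y _ _ hx hy => rw [map_add]; exact add_mem hx hy
      | smul c x _ hx => rw [map_smul]; exact Submodule.smul_mem _ c hx
    · obtain ⟨i, b, hb, hb', hi⟩ := hr a (hSm a ha).1
      refine ⟨p ^ i, fun u hu => ?_⟩
      rw [sub_pow_char_pow_of_commute p i (Commute.one_right _), one_pow, ← map_pow, hi]
      exact Submodule.subset_span ⟨(⟨b, hb'⟩ : Γ) ^ e, ⟨⟨b, hb'⟩, hb, rfl⟩, u, hu, rfl⟩
    · refine h1.trans (le_sup_of_le_right ?_)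
      rw [← hS]
      exact aug_closure S _ fun g hg => hV g (hS ▸ hg : g ∈ R ⊓ H).2
  have h3 : ∀ n : ℕ, genS ρ H {v} ≤ (aug (ρ.comp Γ.subtype) (hc'.pw e))^[n] (genS ρ H {v}) :=
    fun n => by
    induction n with
    | zero => exact le_rfl
    | succ n ih =>
      rw [Function.iterate_succ_apply']
      exact h2.trans (aug_mono le_rfl ih)
  obtain ⟨n, hn⟩ := hAR k Γ M (ρ.comp Γ.subtype) hP _ hEn hEc T (genS ρ Γ {v})
    (fun g u hu => invS_genS ρ Γ _ g g.2 u hu) (hT ▸ genS_mono hΓH _)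
  exact hv0 (hn ⟨mem_genS ρ Γ rfl, hT ▸ h3 n (mem_genS ρ H rfl)⟩)

theorem scal : SKey → SBig → SScal := by
  intro hKey hBig p _ k G M _ _ _ _ _ _ ρ hk hs hL ⟨Γ, hΓ⟩ hρ z hz
  have hz' : ∀ (n : ℤ) (g : G), g * z ^ n = z ^ n * g := fun n g =>
    Subgroup.mem_center_iff.1 (Subgroup.zpow_mem _ hz n) g
  have hn : ∀ y ∈ Subgroup.center G, (Subgroup.zpowers y).Normal := fun y hy =>
    ⟨fun a ha g => by
      rw [Subgroup.mem_center_iff.1 (Subgroup.zpowers_le.2 hy ha) g, mul_inv_cancel_right]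
      exact ha⟩
  obtain ⟨e, he, hE⟩ := hKey p k G M ρ hk hs hL hρ (Γ ⊔ Subgroup.zpowers z) (Subgroup.zpowers z)
    ((hBig p).up G Γ _ hΓ (fg_sup hΓ.1 (fg_zpowers z)) le_sup_left) (hn z hz)
    (fun a _ b ⟨n, hb⟩ => hb ▸ hz' n a)
  have h1 : ρ (z ^ e) = 1 := by
    refine hE (Subgroup.zpowers (z ^ e)) (hn _ (Subgroup.pow_mem _ hz e))
      (Subgroup.zpowers_le.2 (Subgroup.pow_mem _ (Subgroup.mem_zpowers z) e)) ?_ _
      (Subgroup.mem_zpowers _)
    rintro _ ⟨n, rfl⟩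
    refine ⟨0, z ^ n, ⟨n, rfl⟩, Subgroup.mem_sup_right ⟨n, rfl⟩, ?_⟩
    beta_reduce
    rw [pow_zero, pow_one, ← zpow_natCast, ← zpow_natCast, ← zpow_mul, ← zpow_mul, mul_comm]
  have h2 : IsOfFinOrder (ρ z) := isOfFinOrder_iff_pow_eq_one.2 ⟨e, he, by rw [← map_pow, h1]⟩
  have := hρ.1
  obtain ⟨v, hv⟩ := exists_ne (0 : M)
  let U : Submodule k M :=
    Submodule.span k ((fun f : Module.End k M => f v) '' (Submonoid.powers (ρ z)))
  have : FiniteDimensional k U := FiniteDimensional.span_of_finite k (h2.finite_powers.image _)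
  obtain ⟨u, -, hu, hc⟩ := exists_eigen (fun _ : Unit => ρ z) U
    ((Submodule.ne_bot_iff _).2 ⟨v, Submodule.subset_span ⟨1, one_mem _, rfl⟩, hv⟩)
    (fun _ _ _ _ => rfl) fun _ u hu => by
      induction hu using Submodule.span_induction with
      | mem x hx =>
        obtain ⟨f, hf, rfl⟩ := hx
        exact Submodule.subset_span ⟨ρ z * f, mul_mem (Submonoid.mem_powers _) hf, rfl⟩
      | zero => rw [map_zero]; exact zero_mem _
      | add x y _ _ hx hy => rw [map_add]; exact add_mem hx hy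
      | smul c x _ hx => rw [map_smul]; exact Submodule.smul_mem _ c hx
  obtain ⟨c, hc⟩ := hc ()
  have mem : ∀ x, x ∈ LinearMap.ker (ρ z - c • (1 : M →ₗ[k] M)) ↔ ρ z x = c • x := fun x => by
    simp [sub_eq_zero]
  have h3 := (hρ.2 (LinearMap.ker (ρ z - c • (1 : M →ₗ[k] M))) fun g x hx => by
    rw [mem] at hx ⊢
    rw [← rep_mul, ← Subgroup.mem_center_iff.1 hz g, rep_mul, hx, map_smul]).resolve_left
    fun e => hu ((Submodule.eq_bot_iff _).1 e u ((mem u).2 hc))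
  exact ⟨c, sub_eq_zero.1 (LinearMap.ker_eq_top.1 h3)⟩

end Pool.Agent.MP_6a4325_al.H94
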