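import Pool.Agent.MP_6a4325_al.H84.Spec3

/-!
The tensor product of a representation that is diagonal on `N` with one that is absolutely
irreducible on `N`.
-/

set_option autoImplicit false

namespace Pool.Agent.MP_6a4325_al.H94

open Pool.Agent.MP_6a4325_al.H62 Pool.Agent.MP_6a4325_al.H84 Matrix

/-- the tensor product of two matrix representations -/
def kron {K G ι κ : Type} [Field K] [Group G] [Fintype ι] [DecidableEq ι] [Fintype κ]
    [DecidableEq κ] (a : G →* Matrix ι ι K) (b : G →* Matrix κ κ K) :
    G →* Matrix (ι × κ) (ι × κ) K where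
  toFun g := kroneckerMap (· * ·) (a g) (b g)
  map_one' := by rw [map_one, map_one]; exact one_kronecker_one
  map_mul' g h := by rw [map_mul, map_mul]; exact mul_kronecker_mul _ _ _ _

theorem tens : AiApi → SKeyT → STens := by
  intro hA hK K G _ _ N n₁ n₂ a b χ ha hb hd hχ
  classical
  suffices h : AI (kron a b) from
    (hA.reindex K G _ _ _ finProdFinEquiv.symm h).imp fun _ h => h.1
  rw [hA.li, Fintype.linearIndependent_iff]
  intro c hc
  let f : Fin n₁ → Set.range χ := fun i => ⟨χ i, i, rfl⟩
  let E : G → Fin n₁ → Matrix (Fin n₂) (Fin n₂) K := fun x i =>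
    Matrix.of fun l k => ∑ j, c ((i, k), (j, l)) * a x i j
  have h1 : ∀ (x : G) (h : N), ∑ i, χ i h * (b x * E x i * b h).trace = 0 := fun x h => by
    have e := congrFun hc (h * x)
    rw [Finset.sum_apply, Fintype.sum_prod_type, Fintype.sum_prod_type] at e
    refine (Finset.sum_congr rfl fun i _ => ?_).trans e
    rw [trace_mul_comm, ← mul_assoc, ← map_mul, trace_mul_comm, trace, Finset.sum_comm,
      Fintype.sum_prod_type, Finset.sum_comm, Finset.mul_sum]
    refine Finset.sum_congr rfl fun l _ => ?_
    rw [diag_apply, mul_apply, Finset.mul_sum, Finset.sum_comm]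
    refine Finset.sum_congr rfl fun k _ => ?_
    simp only [E, of_apply, Finset.sum_mul, Finset.mul_sum]
    refine Finset.sum_congr rfl fun j _ => ?_
    change _ = c _ * (a (h * x) i j * b (h * x) k l)
    rw [map_mul a, hd, diagonal_mul]
    ring
  have h2 : ∀ (x : G) (ψ : Set.range χ), ∑ i with f i = ψ, E x i = 0 := fun x ψ => by
    have e := congrFun (hK K N (Set.range χ) n₂ _ (fun ψ => ψ.1) hb ?_
      (fun ψ => b x * ∑ i with f i = ψ, E x i) fun h => ?_) ψ
    · have e' := congrArg (b x⁻¹ * ·) e
      simpa only [← mul_assoc, ← map_mul, inv_mul_cancel, map_one, one_mul, Pi.zero_apply,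
        mul_zero] using e'
    · rintro ⟨_, i, rfl⟩ ⟨_, j, rfl⟩ hij m hm
      by_contra hn
      exact hij (Subtype.ext (hχ i j m hm fun h => by_contra fun e => hn ⟨h, e⟩))
    · rw [← h1 x h, ← Finset.sum_fiberwise Finset.univ f]
      refine Finset.sum_congr rfl fun ψ _ => ?_
      rw [Finset.mul_sum, Finset.sum_mul, trace_sum, Finset.mul_sum]
      refine Finset.sum_congr rfl fun i hi => ?_
      rw [← (Finset.mem_filter.1 hi).2]
      rfl
  rintro ⟨⟨i, k⟩, j, l⟩
  have h3 := Fintype.linearIndependent_iff.1 ((hA.li K G _ a).1 ha)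
    (fun ij => if f ij.1 = f i then c ((ij.1, k), (ij.2, l)) else 0) (funext fun x => ?_) (i, j)
  · simpa using h3
  · have e := congrFun (congrFun (h2 x (f i)) l) k
    rw [Matrix.sum_apply, Finset.sum_filter] at e
    rw [Finset.sum_apply, Fintype.sum_prod_type]
    refine (Finset.sum_congr rfl fun i' _ => ?_).trans e
    split_ifs with h
    · rfl
    · simp

end Pool.Agent.MP_6a4325_al.H94
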